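import Pool.Agent.Y294.TB.Stm

/-!
The loop theorem at a place.
-/

set_option autoImplicit false

namespace Pool.Agent.Y495.TB

open MeasureTheory Set Filter Topology
open Pool.Agent.TH746 Pool.Agent.TH746.AL MvPolynomial H450Al H450Sp
open Pool.Agent.Y294.TB

theorem nonunits_mul {F : Type*} [Field F] (B : ValuationSubring F) {a b : F}
    (ha : a ∈ B.nonunits) (hb : b ∈ B) : a * b ∈ B.nonunits := by
  rw [ValuationSubring.mem_nonunits_iff] at ha ⊢
  rw [← ValuationSubring.valuation_le_one_iff] at hb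
  rw [map_mul]
  exact mul_lt_one_of_lt_of_le ha hb

theorem inv_mem_of {F : Type*} [Field F] (B : ValuationSubring F) {a : F}
    (ha : a ∉ B.nonunits) : a⁻¹ ∈ B := by
  rw [ValuationSubring.mem_nonunits_iff, not_lt] at ha
  rw [← ValuationSubring.valuation_le_one_iff, map_inv₀]
  exact inv_le_one_of_one_le₀ ha

theorem not_nonunits_of {F : Type*} [Field F] (B : ValuationSubring F) {a : F} (h0 : a ≠ 0)
    (ha : a⁻¹ ∈ B) : a ∉ B.nonunits := by
  intro h
  have h1 := nonunits_mul B h ha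
  rw [mul_inv_cancel₀ h0, ValuationSubring.mem_nonunits_iff, map_one] at h1
  exact lt_irrefl _ h1

/-- algebraic elements are integral at the place -/
theorem alg_mem {k : Type*} [Field k] [Algebra k ℝ] (K : IntermediateField k ℝ)
    (B : ValuationSubring ℝ) (hK : ∀ a ∈ K, a ∈ B) {a : ℝ} (ha : IsAlgebraic K a) : a ∈ B := by
  let _ : Algebra K B := constAlgebra K B (fun a => hK _ a.2)
  have _ : IsScalarTower K B ℝ := constTower K B (fun a => hK _ a.2)
  have h1 : IsIntegral K a := ha.isIntegral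
  have h2 : IsIntegral B a := h1.tower_top
  obtain ⟨y, hy⟩ := IsIntegrallyClosed.isIntegral_iff.1 h2
  rw [← hy]
  exact y.2

theorem alg_unit {k : Type*} [Field k] [Algebra k ℝ] (K : IntermediateField k ℝ)
    (B : ValuationSubring ℝ) (hK : ∀ a ∈ K, a ∈ B) {a : ℝ} (ha : IsAlgebraic K a) (h0 : a ≠ 0) :
    a ∉ B.nonunits :=
  not_nonunits_of B h0 (alg_mem K B hK ha.inv)

theorem core1 (h1 : S_CHAIN) (h2 : S_LEN) (h3 : S_PLACE) : S_CORE1 := by
  intro k _ _ K hK n P Φ q u t hn hq0 hqn hrk hrkK hunit hP hnc hΦ hgrad hq hu hsum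
  obtain ⟨lam, B, hlam, hKB, heB, hlamnu, hres⟩ := h3 k K hK (u 0) hrkK hunit
  obtain ⟨e, he⟩ : ∃ e : ℕ → Fin 2 → ℝ, e = fun i l => lam * u i l := ⟨_, rfl⟩
  obtain ⟨s, hs⟩ : ∃ s : ℕ → ℝ, s = fun i => t i / lam := ⟨_, rfl⟩
  have hse : ∀ i < n, q (i + 1) = fun j => q i j + s i * e i j := by
    intro i hi
    rw [hq i hi]
    funext j
    simp only [hs, he]
    field_simp
  have hee : ∀ i, i + 1 < n → e (i + 1) = refl (grad (Φ (i + 1)) (q (i + 1))) (e i) := by
    intro i hi
    simp only [he]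
    rw [refl_smul_vec, hu i hi]
  have hunits : ∀ i < n, ∑ j, u i j ^ 2 = 1 := by
    intro i
    induction i with
    | zero => intro _; exact hunit
    | succ i ih =>
      intro hi
      rw [hu i (by omega), refl_sq _ _ (sq_sum_ne _ (hgrad (i + 1) (by omega) hi))]
      exact ih (by omega)
  have he0 : ∑ i, e 0 i ^ 2 = lam ^ 2 := by
    simp only [he, mul_pow]
    rw [← Finset.mul_sum, hunit, mul_one]
  obtain ⟨N, rfl⟩ : ∃ N, n = N + 1 := ⟨n - 1, by omega⟩
  obtain ⟨c1, c2, c3, ⟨l, hl⟩, -, -⟩ := h1 k K B hKB N P Φ q e s hrk hq0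
    (fun i => by rw [he]; exact heB i) (by rw [he0]; exact hlamnu)
    (by rw [he]; exact hres)
    (fun i a b => hP i a (by omega)) (fun i a b => hnc i a (by omega))
    (fun i a b => hgrad i a (by omega)) (fun i a => hse i (by omega))
    (fun i a => hee i (by omega))
  have hinv := inv_mem_of B hl
  have hel : e N l ≠ 0 := by
    intro h0
    apply hl
    rw [h0, ValuationSubring.mem_nonunits_iff, map_zero]
    exact zero_lt_one
  have hsN : s N ∈ B := by
    have h5 : s N = (q (N + 1) l - q N l) * (e N l)⁻¹ := by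
      have h6 := congrFun (hse N (by omega)) l
      rw [h6]
      field_simp
      ring
    rw [h5]
    exact B.mul_mem _ _ (sub_mem (alg_mem K B hKB (hqn l)) (c2 l)) hinv
  have hS : ∑ i ∈ Finset.range (N + 1), s i ∈ B := by
    rw [Finset.sum_range_succ]
    exact B.add_mem _ _ c1 hsN
  have hlen := h2 k K (N + 1) Φ q u t hn hq0 hqn hunits hΦ hq hu
  have h7 : lam ^ 2 * (∑ i ∈ Finset.range (N + 1), s i) ^ 2 =
      (∑ i ∈ Finset.range (N + 1), t i) ^ 2 := by
    have h8 : ∑ i ∈ Finset.range (N + 1), s i = (∑ i ∈ Finset.range (N + 1), t i) / lam := by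
      rw [hs, Finset.sum_div]
    rw [h8]
    field_simp
  have h9 := nonunits_mul B hlamnu (B.pow_mem hS 2)
  rw [h7] at h9
  exact alg_unit K B hKB (hlen.pow 2) (pow_ne_zero 2 hsum) h9

end Pool.Agent.Y495.TB
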